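import Pool.Agent.H.MP_7f7674_al.E

namespace Pool.Agent.Results.MP_7f7674_al.Bounded

open Pool.Agent.H.MP_7f7674_al Pool.Agent.H.MP_e43f0d_lc
open Pool.Agent.H.MP_567c26_al (Rel)

theorem result (S A : Type) [Semigroup S] [Finite A] (g : A → S) (L : List A → Prop) (k : ℕ)
    (h : QAS g L) (hk : ∀ u, {v | Rel g L [] u v}.encard ≤ k) : Async True S := by
  refine async_of_cs h (fun A _ R r rf sy tr hk => ?_) hk
  obtain ⟨C, a, b, c⟩ := cross k R r.ir sy tr fun u => (hk u).trans (by exact_mod_cast k.le_succ)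
  exact ⟨_, a, fun x g => ⟨x, b x g⟩, fun u ⟨v, g⟩ => c u (rf u v g)⟩

end Pool.Agent.Results.MP_7f7674_al.Bounded
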