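import Pool.Agent.H.MP_7f7674_al.E

namespace Pool.Agent.Results.MP_7f7674_al.Equiv

open Pool.Agent.H.MP_7f7674_al Pool.Agent.H.MP_e43f0d_lc
open Pool.Agent.H.MP_567c26_al (Rel)

theorem result (P P' : Prop) :
    (∀ (S : Type) [Semigroup S], QA P S → Async P' S) ↔ CS ⊤ := by
  refine ⟨fun h A _ R r _ sy tr _ => ?_, fun c S _ ⟨A, _, g, L, _, h⟩ => ?_⟩
  · obtain ⟨B, _, g, L, i, a⟩ := qa sy tr r.ir
    obtain ⟨B', _, g', L', -, a'⟩ := h _ ⟨B, ‹_›, g, L, fun _ => i trivial, a⟩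
    exact cs_of sy tr r.ir ⟨B', ‹_›, g', L', False.elim, a'⟩
  · obtain ⟨B, _, g', L', i, a⟩ := async_of_cs h c fun _ => le_top
    exact ⟨B, ‹_›, g', L', fun _ => i trivial, a⟩

end Pool.Agent.Results.MP_7f7674_al.Equiv
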